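import Pool.Agent.SZG.StmtsF

/-!
SZG row NOR: points of bounded height have bounded order.
-/

set_option autoImplicit false

namespace Pool.Agent.SZG.H71

open Pool.Agent.THS

/-- NOR. -/
theorem nor (hthd : THS.ThdStatement) (hpig : THS.PigStatement) (hprp : THS.PrpStatement) :
    NorStmt := by
  intro g d H
  obtain ⟨B, hB⟩ := hpig g d H
  refine ⟨B, ?_⟩
  intro K _ _ hd φ τ hτ z hz x hx0 hx hH
  obtain ⟨N, hN, p, q, hpq⟩ := hz
  obtain ⟨α, β, T, hT, hlast⟩ := hthd g K φ τ hτ z N p q hN hpq x hx0 hx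
  obtain ⟨i, j, hij, hj, l, -, hl⟩ := hB K hd N α β T x hT.toNSeq hH
  obtain ⟨r, hr⟩ := hprp K g N α β T x hT.toNSeq (i : ℤ) (j : ℤ) l hl
  refine ⟨j - i, by omega, by omega, ?_⟩
  apply hlast (j - i) r
  intro c
  rw [← hr c]
  congr 1
  omega

end Pool.Agent.SZG.H71
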